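import Pool.Agent.Helper93.UX.Defs
import Pool.Agent.Helper49.SO.Base
import Pool.Agent.Helper24.UG.Win

/-!
# TX, block A14: the moments of the number of zeros in a window
-/

set_option autoImplicit false
open MeasureTheory Set Filter Topology
open Pool.Agent.Helper93.UG (zc sp)

namespace Pool.Agent.Helper9.TX

open Classical in
lemma pt_dyadic (n : ℕ) {w : ℝ} (hw : 0 < w) (I : ℕ) {f : ℝ} (h0 : 0 ≤ f) (h1 : f < 2 ^ I * w) :
    f ^ n ≤ w ^ n + ∑ i ∈ Finset.range I, (2 ^ (i + 1) * w) ^ n * (if 2 ^ i * w ≤ f then 1 else 0) := by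
  induction I with
  | zero =>
    rw [pow_zero, one_mul] at h1
    simp only [Finset.range_zero, Finset.sum_empty, add_zero]
    exact pow_le_pow_left₀ h0 h1.le n
  | succ I ih =>
    rw [Finset.sum_range_succ]
    rcases lt_or_ge f (2 ^ I * w) with h2 | h2
    · have h3 := ih h2
      have h4 : 0 ≤ (2 ^ (I + 1) * w) ^ n * (if 2 ^ I * w ≤ f then (1:ℝ) else 0) := by
        split_ifs <;> positivity
      linarith
    · rw [if_pos h2, mul_one]
      have h3 : f ^ n ≤ (2 ^ (I + 1) * w) ^ n := pow_le_pow_left₀ h0 h1.le n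
      have h4 : 0 ≤ ∑ i ∈ Finset.range I, (2 ^ (i + 1) * w) ^ n * (if 2 ^ i * w ≤ f then (1:ℝ) else 0) := by
        refine Finset.sum_nonneg fun i _ => ?_
        split_ifs <;> positivity
      have h5 : 0 ≤ w ^ n := by positivity
      linarith

lemma int_dyadic {F : ℝ → ℝ} (hF : Measurable F) (h0 : ∀ t, 0 ≤ F t) (n : ℕ) {w : ℝ} (hw : 0 < w) (I : ℕ) {a b : ℝ} (hab : a ≤ b)
    (hI : ∀ t ∈ Icc a b, F t < 2 ^ I * w) :
    IntegrableOn (fun t => F t ^ n) (Icc a b) ∧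
    ∫ t in Icc a b, F t ^ n ≤ w ^ n * (b - a) +
      ∑ i ∈ Finset.range I, (2 ^ (i + 1) * w) ^ n * (volume {t : ℝ | t ∈ Icc a b ∧ 2 ^ i * w ≤ F t}).toReal := by
  classical
  have hint : IntegrableOn (fun t => F t ^ n) (Icc a b) := by
    refine Measure.integrableOn_of_bounded (M := (2 ^ I * w) ^ n) (by simp) (hF.pow_const n).aestronglyMeasurable ?_
    refine (ae_restrict_iff' measurableSet_Icc).2 (Eventually.of_forall fun t ht => ?_)
    rw [Real.norm_eq_abs, abs_of_nonneg (by have := h0 t; positivity)]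
    exact pow_le_pow_left₀ (h0 t) (hI t ht).le n
  refine ⟨hint, ?_⟩
  have hA : ∀ i : ℕ, MeasurableSet {t : ℝ | 2 ^ i * w ≤ F t} := fun i => measurableSet_le measurable_const hF
  have hterm : ∀ i : ℕ, IntegrableOn (fun t => (2 ^ (i + 1) * w) ^ n * (if 2 ^ i * w ≤ F t then (1:ℝ) else 0)) (Icc a b) := by
    intro i
    refine Integrable.const_mul ?_ _
    have e : (fun t => if 2 ^ i * w ≤ F t then (1:ℝ) else 0) = {t : ℝ | 2 ^ i * w ≤ F t}.indicator fun _ => (1:ℝ) := by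
      funext t
      rw [indicator_apply]
      rfl
    rw [e]
    exact (integrable_const (1:ℝ)).indicator (hA i)
  calc ∫ t in Icc a b, F t ^ n
      ≤ ∫ t in Icc a b, (w ^ n + ∑ i ∈ Finset.range I, (2 ^ (i + 1) * w) ^ n * (if 2 ^ i * w ≤ F t then (1:ℝ) else 0)) := by
        refine setIntegral_mono_on hint ?_ measurableSet_Icc fun t ht => pt_dyadic n hw I (h0 t) (hI t ht)
        exact (integrable_const _).add (integrable_finset_sum _ fun i _ => hterm i)
    _ = w ^ n * (b - a) +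
      ∑ i ∈ Finset.range I, (2 ^ (i + 1) * w) ^ n * (volume {t : ℝ | t ∈ Icc a b ∧ 2 ^ i * w ≤ F t}).toReal := by
        rw [integral_add (integrable_const _) (integrable_finset_sum _ fun i _ => hterm i),
          integral_finset_sum _ fun i _ => hterm i]
        congr 1
        · rw [integral_const]
          simp only [measureReal_restrict_apply_univ, Real.volume_real_Icc_of_le hab, smul_eq_mul]
          ring
        · refine Finset.sum_congr rfl fun i _ => ?_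
          rw [integral_const_mul]
          congr 1
          have e : (fun t => if 2 ^ i * w ≤ F t then (1:ℝ) else 0) = {t : ℝ | 2 ^ i * w ≤ F t}.indicator fun _ => (1:ℝ) := by
            funext t
            rw [indicator_apply]
            rfl
          rw [e, integral_indicator (hA i), integral_const, smul_eq_mul, mul_one, measureReal_restrict_apply_univ,
            measureReal_def, Measure.restrict_apply (hA i)]
          congr 2
          ext t
          exact ⟨fun h => ⟨h.2, h.1⟩, fun h => ⟨h.2, h.1⟩⟩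

lemma exp_term {κ W : ℝ} (hκ : 0 < κ) (hW : 0 < W) (m : ℕ) :
    W ^ m * Real.exp (-(κ * W)) ≤ ((m + 1).factorial : ℝ) / κ ^ (m + 1) / W := by
  have h1 : (κ * W) ^ (m + 1) / ((m + 1).factorial : ℝ) ≤ Real.exp (κ * W) :=
    Real.pow_div_factorial_le_exp _ (by positivity) (m + 1)
  have hf : (0:ℝ) < ((m + 1).factorial : ℝ) := by exact_mod_cast Nat.factorial_pos _
  rw [Real.exp_neg, ← div_eq_mul_inv, div_div, div_le_div_iff₀ (Real.exp_pos _) (by positivity)]
  rw [div_le_iff₀ hf] at h1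
  calc W ^ m * (κ ^ (m + 1) * W) = (κ * W) ^ (m + 1) := by rw [mul_pow]; ring
    _ ≤ Real.exp (κ * W) * ((m + 1).factorial : ℝ) := h1
    _ = _ := by ring

lemma geo_sum (I : ℕ) : ∑ i ∈ Finset.range I, (1 / 2 : ℝ) ^ i ≤ 2 := by
  have h := geom_sum_eq (x := (1/2:ℝ)) (by norm_num) I
  rw [h]
  have : (0:ℝ) ≤ (1/2) ^ I := by positivity
  rw [div_le_iff_of_neg (by norm_num)]
  linarith

theorem tx1_of
    (master : ∃ C κ M₀ T₀ : ℝ, 0 < C ∧ 0 < κ ∧ 1 ≤ M₀ ∧ ∀ T c M : ℝ, T₀ ≤ T → 1 ≤ c →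
      c * Real.log (Real.log T) ≤ Real.log T → M₀ ≤ M → M ≤ Real.log T →
      ∀ (V : ℝ) (k : ℕ), 0 < V → (k : ℝ) ≤ M / 8 →
      volume {t : ℝ | T / 2 ≤ t ∧ t ≤ 3 * T ∧ V + C * M ≤ |(zc (Ico t (t + c * sp T)) : ℝ) - c|} ≤
        ENNReal.ofReal ((C * Real.exp (-(κ * M)) +
          C * (k.factorial * (2 / Real.pi ^ 2 * (Real.log c + C) / V ^ 2) ^ k)) * T)) :
    Pool.Agent.Helper93.UX.TX1 := by
  obtain ⟨C, κ, M₀, T₀, hC, hκ, hM₀, hm⟩ := master
  obtain ⟨C3, hC3, hz⟩ := Pool.Agent.Helper49.SO.zc_near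
  intro q
  have hpi := Real.pi_pos
  -- constants
  obtain ⟨B, hB⟩ : ∃ B : ℝ, B = 2 * C + 2 * C3 + 1 := ⟨_, rfl⟩
  have hB0 : 0 < B := by rw [hB]; positivity
  obtain ⟨A, hA⟩ : ∃ A : ℝ, A = 1 + B * (M₀ + 8 * (q + 1)) := ⟨_, rfl⟩
  have hA1 : 1 ≤ A := by
    rw [hA]
    have : 0 ≤ B * (M₀ + 8 * (q + 1)) := by positivity
    linarith
  obtain ⟨K1, hK1⟩ : ∃ K1 : ℝ, K1 = 4 ^ q * C * (((2 * q + 1).factorial : ℝ) / (κ / B) ^ (2 * q + 1)) := ⟨_, rfl⟩
  obtain ⟨K2, hK2⟩ : ∃ K2 : ℝ, K2 = 4 ^ q * C * (((q + 1).factorial : ℝ) * (8 / Real.pi ^ 2 * (1 + C)) ^ (q + 1)) := ⟨_, rfl⟩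
  have hK10 : 0 ≤ K1 := by rw [hK1]; positivity
  have hK20 : 0 ≤ K2 := by rw [hK2]; positivity
  refine ⟨5 / 2 * A ^ (2 * q) + 2 * K1 + 2 * K2, 1, max T₀ (Real.exp (Real.exp 8)), by positivity, one_pos, ?_⟩
  intro T hT c hc1 hcT
  have hT0 : T₀ ≤ T := (le_max_left _ _).trans hT
  have hTe : Real.exp (Real.exp 8) ≤ T := (le_max_right _ _).trans hT
  have hTpos : 0 < T := (Real.exp_pos _).trans_le hTe
  have hlT : Real.exp 8 ≤ Real.log T := (Real.le_log_iff_exp_le hTpos).2 hTe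
  have hlT0 : 0 < Real.log T := (Real.exp_pos _).trans_le hlT
  have hllT : 8 ≤ Real.log (Real.log T) := (Real.le_log_iff_exp_le hlT0).2 hlT
  have hT4 : 4 ≤ T := by
    have h1 : (8:ℝ) + 1 ≤ Real.exp 8 := Real.add_one_le_exp 8
    have h2 : Real.exp 8 + 1 ≤ Real.exp (Real.exp 8) := Real.add_one_le_exp _
    linarith
  have hcl : c * Real.log (Real.log T) ≤ Real.log T := by
    rw [one_mul, le_div_iff₀ (by linarith)] at hcT
    exact hcT
  have hc0 : 0 < c := by linarith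
  have hclT : c ≤ Real.log T := by nlinarith
  have hsp1 : c * sp T ≤ 1 := by
    unfold sp
    rw [← mul_div_assoc, div_le_one hlT0]
    have h1 : 2 * Real.pi ≤ 8 := by linarith [Real.pi_lt_four]
    calc c * (2 * Real.pi) ≤ c * 8 := by gcongr
      _ ≤ c * Real.log (Real.log T) := by gcongr
      _ ≤ Real.log T := hcl
  have hsp0 : 0 ≤ c * sp T := by
    unfold sp
    positivity
  obtain ⟨L, hL⟩ : ∃ L : ℝ, L = Real.log (2 + c) := ⟨_, rfl⟩
  have hL1 : 1 ≤ L := by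
    rw [hL, Real.le_log_iff_exp_le (by linarith)]
    have := Real.exp_one_lt_d9
    linarith
  have hlogc : Real.log c + C ≤ (1 + C) * L := by
    have h1 : Real.log c ≤ L := by
      rw [hL]
      exact Real.log_le_log hc0 (by linarith)
    nlinarith
  have hlogc0 : 0 ≤ Real.log c + C := by
    have := Real.log_nonneg hc1
    linarith
  obtain ⟨w, hw⟩ : ∃ w : ℝ, w = A * √L := ⟨_, rfl⟩
  have hsL : 1 ≤ √L := Real.one_le_sqrt.2 hL1
  have hwA : A ≤ w := by rw [hw]; nlinarith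
  have hw1 : 1 ≤ w := hA1.trans hwA
  have hw0 : 0 < w := by linarith
  have hw2 : w ^ 2 = A ^ 2 * L := by
    rw [hw, mul_pow, Real.sq_sqrt (by linarith)]
  obtain ⟨I, hI⟩ : ∃ I : ℕ, B * Real.log T < 2 ^ I * w := by
    refine ⟨⌈B * Real.log T⌉₊, ?_⟩
    have h1 : B * Real.log T ≤ ⌈B * Real.log T⌉₊ := Nat.le_ceil _
    have h2 : ((⌈B * Real.log T⌉₊ : ℕ) : ℝ) < 2 ^ ⌈B * Real.log T⌉₊ := by exact_mod_cast Nat.lt_two_pow_self
    have h3 : (2:ℝ) ^ ⌈B * Real.log T⌉₊ * 1 ≤ 2 ^ ⌈B * Real.log T⌉₊ * w := by gcongr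
    linarith
  obtain ⟨F, hF⟩ : ∃ F : ℝ → ℝ, F = fun t => |(zc (Ico t (t + c * sp T)) : ℝ) - c| := ⟨_, rfl⟩
  have hFm : Measurable F := by
    rw [hF]
    have h1 := (Pool.Agent.Helper24.UG.zc_meas (c * sp T / 2)).comp (measurable_id.add_const (c * sp T / 2))
    have h2 : (fun t : ℝ => (zc (Ico t (t + c * sp T)) : ℝ)) =
        (fun t => (zc (Ico (t - c * sp T / 2) (t + c * sp T / 2)) : ℝ)) ∘ fun t => id t + c * sp T / 2 := by
      funext t
      simp only [Function.comp_apply, id_eq]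
      congr 3
      · ring
      · ring
    rw [← h2] at h1
    exact (h1.sub_const c).abs
  have hF0 : ∀ t, 0 ≤ F t := fun t => by rw [hF]; exact abs_nonneg _
  have hFB : ∀ t ∈ Icc (T / 2) (3 * T), F t ≤ B * Real.log T := by
    intro t ht
    rw [hF]
    have h1 : (zc (Ico t (t + c * sp T)) : ℝ) ≤ zc (Icc t (t + c * sp T)) := by
      exact_mod_cast Pool.Agent.Helper56.UG.zc_mono Ico_subset_Icc_self (a := t) (b := t + c * sp T) subset_rfl
    have h2 := hz t (t + c * sp T) (by linarith) (by linarith)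
    have h3 : Real.log (4 + |t|) ≤ 2 * Real.log T := by
      rw [abs_of_nonneg (by linarith [ht.1] : 0 ≤ t)]
      calc Real.log (4 + t) ≤ Real.log (T ^ 2) := by
            refine Real.log_le_log (by linarith [ht.1]) ?_
            nlinarith [ht.2]
        _ = 2 * Real.log T := by rw [Real.log_pow]; norm_num
    have h4 : (0:ℝ) ≤ zc (Ico t (t + c * sp T)) := Nat.cast_nonneg _
    have h5 : C3 * Real.log (4 + |t|) ≤ C3 * (2 * Real.log T) := by gcongr
    rw [hB]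
    have h6 : 0 ≤ C * Real.log T := by positivity
    have h7 : 0 ≤ C3 * Real.log T := by positivity
    rw [abs_le]
    constructor <;> linarith
  -- the tail
  have htail : ∀ W : ℝ, w ≤ W → (volume {t : ℝ | t ∈ Icc (T / 2) (3 * T) ∧ W ≤ F t}).toReal ≤
      (C * Real.exp (-(κ / B * W)) + C * ((q + 1).factorial * (8 / Real.pi ^ 2 * ((1 + C) * L) / W ^ 2) ^ (q + 1))) * T := by
    intro W hW
    have hW0 : 0 < W := hw0.trans_le hW
    have hL0 : 0 < L := by linarith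
    rcases lt_or_ge (B * Real.log T) W with hbig | hsm
    · have he : {t : ℝ | t ∈ Icc (T / 2) (3 * T) ∧ W ≤ F t} = ∅ := by
        ext t
        simp only [mem_setOf_eq, mem_empty_iff_false, iff_false, not_and, not_le]
        intro ht
        exact (hFB t ht).trans_lt hbig
      rw [he, measure_empty, ENNReal.toReal_zero]
      positivity
    · have hM1 : M₀ + 8 * (q + 1) ≤ W / B := by
        rw [le_div_iff₀ hB0]
        have : B * (M₀ + 8 * (q + 1)) ≤ A := by rw [hA]; linarith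
        linarith
      have hq0 : (0:ℝ) ≤ q := Nat.cast_nonneg q
      have h1 := hm T c (W / B) hT0 hc1 hcl (by linarith) (by rw [div_le_iff₀ hB0]; linarith) (W / 2) (q + 1) (by positivity)
        (by push_cast; rw [le_div_iff₀ (by norm_num)]; linarith)
      have h2 : {t : ℝ | t ∈ Icc (T / 2) (3 * T) ∧ W ≤ F t} ⊆
          {t : ℝ | T / 2 ≤ t ∧ t ≤ 3 * T ∧ W / 2 + C * (W / B) ≤ |(zc (Ico t (t + c * sp T)) : ℝ) - c|} := by
        rintro t ⟨ht1, ht2⟩
        refine ⟨ht1.1, ht1.2, ?_⟩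
        have h3 : C * (W / B) ≤ W / 2 := by
          rw [← mul_div_assoc, div_le_div_iff₀ hB0 (by norm_num)]
          have : C * 2 ≤ B := by rw [hB]; linarith
          nlinarith
        rw [hF] at ht2
        have ht3 : W ≤ |(zc (Ico t (t + c * sp T)) : ℝ) - c| := ht2
        linarith
      have h4 : (volume {t : ℝ | t ∈ Icc (T / 2) (3 * T) ∧ W ≤ F t}).toReal ≤
          (C * Real.exp (-(κ * (W / B))) + C * ((q + 1).factorial * (2 / Real.pi ^ 2 * (Real.log c + C) / (W / 2) ^ 2) ^ (q + 1))) * T :=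
        ENNReal.toReal_le_of_le_ofReal (by positivity) ((measure_mono h2).trans h1)
      refine h4.trans ?_
      have e1 : κ * (W / B) = κ / B * W := by ring
      have e2 : 2 / Real.pi ^ 2 * (Real.log c + C) / (W / 2) ^ 2 ≤ 8 / Real.pi ^ 2 * ((1 + C) * L) / W ^ 2 := by
        have : 2 / Real.pi ^ 2 * (Real.log c + C) / (W / 2) ^ 2 = 8 / Real.pi ^ 2 * (Real.log c + C) / W ^ 2 := by
          field_simp
          ring
        rw [this]
        gcongr
      rw [e1]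
      gcongr
  have key := int_dyadic hFm hF0 (2 * q) hw0 I (a := T / 2) (b := 3 * T) (by linarith) fun t ht => (hFB t ht).trans_lt hI
  rw [hF] at key
  refine ⟨key.1, key.2.trans ?_⟩
  rw [← hF]
  have hterm : ∀ i ∈ Finset.range I, (2 ^ (i + 1) * w) ^ (2 * q) *
      (volume {t : ℝ | t ∈ Icc (T / 2) (3 * T) ∧ 2 ^ i * w ≤ F t}).toReal ≤ (K1 + K2 * L ^ q) * T * (1 / 2) ^ i := by
    intro i _
    have h2i : (1:ℝ) ≤ 2 ^ i := one_le_pow₀ (by norm_num)
    obtain ⟨W, hW⟩ : ∃ W : ℝ, W = 2 ^ i * w := ⟨_, rfl⟩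
    have hwW : w ≤ W := by rw [hW]; nlinarith
    have hW0 : 0 < W := hw0.trans_le hwW
    have h1 := htail W hwW
    have e0 : (2:ℝ) ^ (i + 1) * w = 2 * W := by rw [hW]; ring
    rw [e0, ← hW]
    have e1 : (2 * W) ^ (2 * q) = 4 ^ q * W ^ (2 * q) := by
      rw [mul_pow, pow_mul 2 2 q]
      norm_num
    have hhalf : 1 / W ≤ (1 / 2) ^ i := by
      rw [one_div_pow]
      apply one_div_le_one_div_of_le (by positivity)
      rw [hW]
      nlinarith
    have t1 : 4 ^ q * W ^ (2 * q) * (C * Real.exp (-(κ / B * W))) ≤ K1 * (1 / 2) ^ i := by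
      have h2 := exp_term (κ := κ / B) (by positivity) hW0 (2 * q)
      calc 4 ^ q * W ^ (2 * q) * (C * Real.exp (-(κ / B * W))) = 4 ^ q * C * (W ^ (2 * q) * Real.exp (-(κ / B * W))) := by ring
        _ ≤ 4 ^ q * C * (((2 * q + 1).factorial : ℝ) / (κ / B) ^ (2 * q + 1) / W) := by gcongr
        _ = K1 * (1 / W) := by rw [hK1]; ring
        _ ≤ K1 * (1 / 2) ^ i := by gcongr
    have t2 : 4 ^ q * W ^ (2 * q) * (C * ((q + 1).factorial * (8 / Real.pi ^ 2 * ((1 + C) * L) / W ^ 2) ^ (q + 1))) ≤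
        K2 * L ^ q * (1 / 2) ^ i := by
      have e2 : 4 ^ q * W ^ (2 * q) * (C * ((q + 1).factorial * (8 / Real.pi ^ 2 * ((1 + C) * L) / W ^ 2) ^ (q + 1))) =
          K2 * L ^ q * (L / W ^ 2) := by
        rw [hK2, div_pow, mul_pow (8 / Real.pi ^ 2), mul_pow (8 / Real.pi ^ 2), mul_pow (1 + C), ← pow_mul]
        have e3 : W ^ (2 * (q + 1)) = W ^ (2 * q) * W ^ 2 := by ring
        rw [e3, pow_succ L q]
        field_simp
      rw [e2]
      have h3 : L / W ^ 2 ≤ (1 / 2) ^ i := by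
        have h4 : L ≤ w ^ 2 := by
          rw [hw2]
          have : 1 ≤ A ^ 2 := one_le_pow₀ hA1
          nlinarith
        have h5 : W ^ 2 = (2 ^ i) ^ 2 * w ^ 2 := by rw [hW]; ring
        rw [h5, one_div_pow, div_le_div_iff₀ (by positivity) (by positivity), one_mul]
        have h6 : (2:ℝ) ^ i ≤ (2 ^ i) ^ 2 := by nlinarith
        calc L * 2 ^ i ≤ w ^ 2 * (2 ^ i) ^ 2 := by gcongr
          _ = _ := by ring
      gcongr
    calc (2 * W) ^ (2 * q) * (volume {t : ℝ | t ∈ Icc (T / 2) (3 * T) ∧ W ≤ F t}).toReal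
        ≤ (2 * W) ^ (2 * q) * ((C * Real.exp (-(κ / B * W)) +
            C * ((q + 1).factorial * (8 / Real.pi ^ 2 * ((1 + C) * L) / W ^ 2) ^ (q + 1))) * T) := by gcongr
      _ = (4 ^ q * W ^ (2 * q) * (C * Real.exp (-(κ / B * W))) +
            4 ^ q * W ^ (2 * q) * (C * ((q + 1).factorial * (8 / Real.pi ^ 2 * ((1 + C) * L) / W ^ 2) ^ (q + 1)))) * T := by
          rw [e1]; ring
      _ ≤ (K1 * (1 / 2) ^ i + K2 * L ^ q * (1 / 2) ^ i) * T := by gcongr
      _ = _ := by ring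
  have hsum := Finset.sum_le_sum hterm
  rw [← Finset.mul_sum] at hsum
  have hLq : 1 ≤ L ^ q := one_le_pow₀ hL1
  have hgs : (K1 + K2 * L ^ q) * T * ∑ i ∈ Finset.range I, (1 / 2 : ℝ) ^ i ≤ (K1 + K2 * L ^ q) * T * 2 :=
    mul_le_mul_of_nonneg_left (geo_sum I) (by positivity)
  have e5 : w ^ (2 * q) = A ^ (2 * q) * L ^ q := by
    rw [pow_mul, hw2, mul_pow, ← pow_mul]
  calc w ^ (2 * q) * (3 * T - T / 2) + ∑ i ∈ Finset.range I, (2 ^ (i + 1) * w) ^ (2 * q) *
        (volume {t : ℝ | t ∈ Icc (T / 2) (3 * T) ∧ 2 ^ i * w ≤ F t}).toReal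
      ≤ w ^ (2 * q) * (3 * T - T / 2) + (K1 + K2 * L ^ q) * T * 2 := by linarith
    _ = (5 / 2 * A ^ (2 * q) * L ^ q + 2 * K1 + 2 * K2 * L ^ q) * T := by rw [e5]; ring
    _ ≤ (5 / 2 * A ^ (2 * q) * L ^ q + 2 * K1 * L ^ q + 2 * K2 * L ^ q) * T := by
        have h9 : 2 * K1 * 1 ≤ 2 * K1 * L ^ q := mul_le_mul_of_nonneg_left hLq (by positivity)
        refine mul_le_mul_of_nonneg_right ?_ hTpos.le
        linarith
    _ = (5 / 2 * A ^ (2 * q) + 2 * K1 + 2 * K2) * Real.log (2 + c) ^ q * T := by rw [← hL]; ring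

end Pool.Agent.Helper9.TX
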